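import Pool.Agent.N229.SC.Stm

/-!
Project SC (MP_83fd13_an), part LIP: the domain `f(D)` is locally the region above the graph of a
Lipschitz function (cone condition).
-/

set_option autoImplicit false

open Set Filter Topology MeasureTheory

namespace Pool.Agent.Run7.h834.SC

open Pool.Agent.N229.SC

/-- A set with the cone property near `q` is locally the region above a Lipschitz graph. -/
theorem graph_of_cone (U : Set ℂ) (hU : IsOpen U) (q e g : ℂ) (s : ℝ) (hs : 0 < s) (hq : q ∉ U)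
    (he : ‖e‖ = 1) (hg : ‖g‖ = 1) (heg : @inner ℝ ℂ _ e g = 0)
    (hc : ∀ x ∈ Metric.ball q s, ∀ p ∈ Metric.ball q s, x ∈ U →
      |@inner ℝ ℂ _ p e - @inner ℝ ℂ _ x e| ≤ @inner ℝ ℂ _ p g - @inner ℝ ℂ _ x g → p ∈ U) :
    ∃ K : NNReal, ∃ γ : ℝ → ℝ, LipschitzWith K γ ∧
        ∀ x ∈ Metric.ball q s, (x ∈ U ↔ γ (@inner ℝ ℂ _ x e) < @inner ℝ ℂ _ x g) := by
  set N : Set ℂ := {p | p ∈ Metric.ball q s ∧ p ∉ U} with hN
  have hqN : q ∈ N := ⟨Metric.mem_ball_self hs, hq⟩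
  have : Nonempty N := ⟨⟨q, hqN⟩⟩
  set F : ℝ → N → ℝ := fun τ p => @inner ℝ ℂ _ (p : ℂ) g - |τ - @inner ℝ ℂ _ (p : ℂ) e| with hF
  have hbd : ∀ τ, BddAbove (Set.range (F τ)) := by
    intro τ
    refine ⟨‖q‖ + s, ?_⟩
    rintro _ ⟨p, rfl⟩
    have h1 : @inner ℝ ℂ _ (p : ℂ) g ≤ ‖(p : ℂ)‖ * ‖g‖ := real_inner_le_norm _ _
    have h2 : ‖(p : ℂ) - q‖ < s := by
      have := p.2.1
      rwa [Metric.mem_ball, dist_eq_norm] at this
    have h3 : ‖(p : ℂ)‖ ≤ ‖(p : ℂ) - q‖ + ‖q‖ := by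
      have := norm_add_le ((p : ℂ) - q) q
      rwa [sub_add_cancel] at this
    have h4 : 0 ≤ |τ - @inner ℝ ℂ _ (p : ℂ) e| := abs_nonneg _
    rw [hg, mul_one] at h1
    simp only [hF]
    linarith
  refine ⟨1, fun τ => ⨆ p : N, F τ p, ?_, ?_⟩
  · refine LipschitzWith.of_le_add fun a b => ?_
    refine ciSup_le fun p => ?_
    have h1 : F b p ≤ ⨆ p : N, F b p := le_ciSup (hbd b) p
    have h2 : F a p ≤ F b p + dist a b := by
      simp only [hF, Real.dist_eq]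
      have h3 := abs_sub_abs_le_abs_sub (b - @inner ℝ ℂ _ (p : ℂ) e) (a - @inner ℝ ℂ _ (p : ℂ) e)
      have h4 : b - @inner ℝ ℂ _ (p : ℂ) e - (a - @inner ℝ ℂ _ (p : ℂ) e) = -(a - b) := by ring
      rw [h4, abs_neg] at h3
      linarith
    linarith
  · intro x hx
    constructor
    · intro hxU
      obtain ⟨δ, hδ, hball⟩ := Metric.isOpen_iff.1 (hU.inter Metric.isOpen_ball) x ⟨hxU, hx⟩
      have hx' : x - ((δ / 2 : ℝ) : ℂ) * g ∈ U ∩ Metric.ball q s := by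
        apply hball
        rw [Metric.mem_ball, dist_eq_norm]
        have : x - ((δ / 2 : ℝ) : ℂ) * g - x = -(((δ / 2 : ℝ) : ℂ) * g) := by ring
        rw [this, norm_neg, norm_mul, Complex.norm_real, hg, mul_one, Real.norm_of_nonneg (by linarith)]
        linarith
      have h1 : (⨆ p : N, F (@inner ℝ ℂ _ x e) p) ≤ @inner ℝ ℂ _ x g - δ / 2 := by
        refine ciSup_le fun p => ?_
        by_contra hcon
        push Not at hcon
        simp only [hF] at hcon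
        apply p.2.2
        refine hc _ hx'.2 _ p.2.1 hx'.1 ?_
        have e1 : @inner ℝ ℂ _ (x - ((δ / 2 : ℝ) : ℂ) * g) e = @inner ℝ ℂ _ x e := by
          have : ((δ / 2 : ℝ) : ℂ) * g = (δ / 2 : ℝ) • g := by simp
          rw [this, inner_sub_left, inner_smul_left, real_inner_comm e g, heg]
          simp
        have e2 : @inner ℝ ℂ _ (x - ((δ / 2 : ℝ) : ℂ) * g) g = @inner ℝ ℂ _ x g - δ / 2 := by
          have : ((δ / 2 : ℝ) : ℂ) * g = (δ / 2 : ℝ) • g := by simp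
          rw [this, inner_sub_left, inner_smul_left, real_inner_self_eq_norm_sq, hg]
          simp
        rw [e1, e2, abs_sub_comm]
        linarith
      calc (⨆ p : N, F (@inner ℝ ℂ _ x e) p) ≤ @inner ℝ ℂ _ x g - δ / 2 := h1
        _ < @inner ℝ ℂ _ x g := by linarith
    · intro hlt
      by_contra hxU
      have hxN : x ∈ N := ⟨hx, hxU⟩
      have h1 : F (@inner ℝ ℂ _ x e) ⟨x, hxN⟩ ≤ ⨆ p : N, F (@inner ℝ ℂ _ x e) p :=
        le_ciSup (hbd _) _
      have h2 : F (@inner ℝ ℂ _ x e) ⟨x, hxN⟩ = @inner ℝ ℂ _ x g := by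
        simp [hF]
      rw [h2] at h1
      exact absurd hlt (not_lt.2 h1)

theorem t_LIP (hI : S_INJ) : S_LIP := by
  intro ρ r f hf z₀ hz₀
  obtain ⟨key, inj⟩ := hI ρ r f hf
  have hρ := hf.rho_pos
  have hr := hf.r_gt
  have hz0r : z₀ ∈ Metric.ball (0 : ℂ) r := by
    rw [Metric.mem_ball, dist_zero_right, hz₀]; exact hr
  have hinv : ∀ x : ℂ, @inner ℝ ℂ _ x (-z₀) ^ 2 + @inner ℝ ℂ _ x (Complex.I * z₀) ^ 2 = ‖x‖ ^ 2 := by
    intro x
    have h1 : z₀.re ^ 2 + z₀.im ^ 2 = 1 := by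
      have := Complex.sq_norm z₀
      rw [hz₀, Complex.normSq_apply] at this
      nlinarith
    rw [Complex.inner, Complex.inner, Complex.sq_norm, Complex.normSq_apply]
    simp only [Complex.mul_re, Complex.conj_re, Complex.conj_im, Complex.neg_re, Complex.neg_im,
      Complex.I_re, Complex.I_im, Complex.mul_im]
    linear_combination (x.re ^ 2 + x.im ^ 2) * h1
  -- the derivative at `z₀`
  have hopen : ∀ ε > 0, f '' Metric.ball z₀ ε ∈ 𝓝 (f z₀) := by
    intro ε hε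
    have hd : ContDiffAt ℂ 1 f z₀ := by
      have h1 : AnalyticAt ℂ f z₀ :=
        (hf.f_diff.analyticOnNhd Metric.isOpen_ball) z₀ hz0r
      exact h1.contDiffAt
    have hs := hd.hasStrictDerivAt (by norm_num)
    have hne : deriv f z₀ ≠ 0 := by
      intro h0
      have := hf.f_der z₀ hz0r
      rw [h0, zero_sub, norm_neg, Complex.norm_real, Real.norm_of_nonneg hρ.le] at this
      linarith
    have hm := hs.map_nhds_eq hne
    rw [← hm]
    exact Filter.image_mem_map (Metric.ball_mem_nhds z₀ hε)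
  -- the radius
  set ε : ℝ := min (r - 1) (1 / 10) with hε
  have hε0 : 0 < ε := lt_min (by linarith) (by norm_num)
  have hεr : ε ≤ r - 1 := min_le_left _ _
  have hε1 : ε ≤ 1 / 10 := min_le_right _ _
  obtain ⟨s, hs, hsub⟩ := Metric.mem_nhds_iff.1 (hopen ε hε0)
  have hballr : Metric.ball z₀ ε ⊆ Metric.ball 0 r := by
    intro w hw
    rw [Metric.mem_ball, dist_zero_right]
    rw [Metric.mem_ball, dist_eq_norm] at hw
    have := norm_add_le (w - z₀) z₀
    rw [sub_add_cancel, hz₀] at this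
    linarith
  have hball1 : Metric.ball (0 : ℂ) 1 ⊆ Metric.ball 0 r := Metric.ball_subset_ball hr.le
  have hOopen : IsOpen (Om f) := by
    rw [Om]
    have hA : AnalyticOnNhd ℂ f (Metric.ball 0 1) :=
      (hf.f_diff.analyticOnNhd Metric.isOpen_ball).mono hball1
    rw [isOpen_iff_mem_nhds]
    rintro _ ⟨w, hw, rfl⟩
    have hwr := hball1 hw
    have hd : ContDiffAt ℂ 1 f w := by
      have h1 : AnalyticAt ℂ f w := hA w hw
      exact h1.contDiffAt
    have hs := hd.hasStrictDerivAt (by norm_num)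
    have hne : deriv f w ≠ 0 := by
      intro h0
      have := hf.f_der w hwr
      rw [h0, zero_sub, norm_neg, Complex.norm_real, Real.norm_of_nonneg hρ.le] at this
      linarith
    rw [← hs.map_nhds_eq hne]
    exact Filter.image_mem_map (Metric.isOpen_ball.mem_nhds hw)
  have hqU : f z₀ ∉ Om f := by
    rintro ⟨w, hw, hfw⟩
    have := inj (hball1 hw) hz0r hfw
    rw [this, Metric.mem_ball, dist_zero_right, hz₀] at hw
    exact lt_irrefl _ hw
  have he : ‖Complex.I * z₀‖ = 1 := by rw [norm_mul, Complex.norm_I, hz₀, one_mul]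
  have hg : ‖-z₀‖ = 1 := by rw [norm_neg, hz₀]
  have heg : @inner ℝ ℂ _ (Complex.I * z₀) (-z₀) = 0 := by
    rw [Complex.inner]
    simp only [Complex.mul_re, Complex.conj_re, Complex.conj_im, Complex.neg_re, Complex.neg_im,
      Complex.I_re, Complex.I_im, Complex.mul_im]
    ring
  refine ⟨Complex.I * z₀, -z₀, he, hg, heg, s, hs, ?_⟩
  refine graph_of_cone (Om f) hOopen (f z₀) _ _ s hs hqU he hg heg ?_
  intro x hx p hp hxU hcone
  obtain ⟨w, hw, hfw⟩ := hxU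
  obtain ⟨w1, hw1, hfw1⟩ := hsub hx
  have hww1 : w = w1 := inj (hball1 hw) (hballr hw1) (hfw.trans hfw1.symm)
  subst hww1
  obtain ⟨w', hw', hfw'⟩ := hsub hp
  refine ⟨w', ?_, hfw'⟩
  rw [Metric.mem_ball, dist_zero_right] at hw ⊢
  by_contra hcon
  push Not at hcon
  -- `d = w' - w`
  have hk := key w' (hballr hw') w (hballr hw1)
  rw [hfw', hfw] at hk
  set d : ℂ := w' - w with hd
  have hd0 : 0 < ‖d‖ := by
    rw [norm_pos_iff]
    intro h0
    have : w' = w := sub_eq_zero.1 h0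
    rw [this] at hcon
    linarith
  -- lower bound of the norm of `p - x`
  have hlow : 9 / 10 * ρ * ‖d‖ ≤ ‖p - x‖ := by
    have h1 : ‖(ρ : ℂ) * d‖ = ρ * ‖d‖ := by
      rw [norm_mul, Complex.norm_real, Real.norm_of_nonneg hρ.le]
    have h2 : ‖(ρ : ℂ) * d‖ ≤ ‖p - x‖ + ‖p - x - ρ * d‖ := by
      have := norm_sub_le (p - x) (p - x - ρ * d)
      have e1 : p - x - (p - x - ρ * d) = ρ * d := by ring
      rwa [e1] at this
    rw [h1] at h2
    nlinarith
  -- upper bound of the inner product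
  have hin : @inner ℝ ℂ _ (p - x) (-z₀) ≤ ρ * @inner ℝ ℂ _ d (-z₀) + ρ / 10 * ‖d‖ := by
    have h1 : @inner ℝ ℂ _ (p - x) (-z₀) =
        @inner ℝ ℂ _ (p - x - ρ * d) (-z₀) + ρ * @inner ℝ ℂ _ d (-z₀) := by
      have e1 : (ρ : ℂ) * d = (ρ : ℝ) • d := by simp
      have e2 : @inner ℝ ℂ _ (p - x) (-z₀) = @inner ℝ ℂ _ ((p - x - ρ • d) + ρ • d) (-z₀) := by
        rw [sub_add_cancel]
      rw [e1, e2, inner_add_left, inner_smul_left]
      simp
    have h2 : @inner ℝ ℂ _ (p - x - ρ * d) (-z₀) ≤ ‖p - x - ρ * d‖ * ‖-z₀‖ := real_inner_le_norm _ _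
    rw [hg, mul_one] at h2
    linarith
  have hdz : @inner ℝ ℂ _ d (-z₀) ≤ ε * ‖d‖ := by
    have h1 : ‖w‖ ^ 2 < ‖w'‖ ^ 2 := by
      have : ‖w‖ < ‖w'‖ := by linarith
      exact pow_lt_pow_left₀ this (norm_nonneg _) (by norm_num)
    have h2 : ‖w'‖ ^ 2 - ‖w‖ ^ 2 = @inner ℝ ℂ _ d ((w' - z₀) + (w - z₀)) + 2 * @inner ℝ ℂ _ d z₀ := by
      rw [hd, Complex.inner, Complex.inner, Complex.sq_norm, Complex.sq_norm, Complex.normSq_apply,
        Complex.normSq_apply]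
      simp only [Complex.mul_re, Complex.conj_re, Complex.conj_im, Complex.sub_re, Complex.sub_im,
        Complex.add_re, Complex.add_im, map_sub]
      ring
    have h3 : @inner ℝ ℂ _ d ((w' - z₀) + (w - z₀)) ≤ ‖d‖ * ‖(w' - z₀) + (w - z₀)‖ :=
      real_inner_le_norm _ _
    have h4 : ‖(w' - z₀) + (w - z₀)‖ ≤ 2 * ε := by
      have := norm_add_le (w' - z₀) (w - z₀)
      rw [Metric.mem_ball, dist_eq_norm] at hw' hw1
      linarith
    have h5 : ‖d‖ * ‖(w' - z₀) + (w - z₀)‖ ≤ ‖d‖ * (2 * ε) :=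
      mul_le_mul_of_nonneg_left h4 hd0.le
    rw [inner_neg_right]
    nlinarith
  have hpos : |@inner ℝ ℂ _ (p - x) (Complex.I * z₀)| ≤ @inner ℝ ℂ _ (p - x) (-z₀) := by
    rw [inner_sub_left, inner_sub_left]
    exact hcone
  have hsq := hinv (p - x)
  have h6 : @inner ℝ ℂ _ (p - x) (Complex.I * z₀) ^ 2 ≤ @inner ℝ ℂ _ (p - x) (-z₀) ^ 2 := by
    rw [← sq_abs]
    exact pow_le_pow_left₀ (abs_nonneg _) hpos 2
  have h7 : 0 ≤ @inner ℝ ℂ _ (p - x) (-z₀) := le_trans (abs_nonneg _) hpos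
  have h8 : @inner ℝ ℂ _ (p - x) (-z₀) ≤ ρ / 5 * ‖d‖ := by
    have : ρ * @inner ℝ ℂ _ d (-z₀) ≤ ρ * (ε * ‖d‖) := mul_le_mul_of_nonneg_left hdz hρ.le
    have h9 : ρ * (ε * ‖d‖) ≤ ρ * (1 / 10 * ‖d‖) :=
      mul_le_mul_of_nonneg_left (mul_le_mul_of_nonneg_right hε1 hd0.le) hρ.le
    linarith
  have h10 : @inner ℝ ℂ _ (p - x) (-z₀) ^ 2 ≤ (ρ / 5 * ‖d‖) ^ 2 := pow_le_pow_left₀ h7 h8 2
  have h11 : (9 / 10 * ρ * ‖d‖) ^ 2 ≤ ‖p - x‖ ^ 2 := pow_le_pow_left₀ (by positivity) hlow 2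
  have h12 : 0 < ρ ^ 2 * ‖d‖ ^ 2 := by positivity
  nlinarith

end Pool.Agent.Run7.h834.SC
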